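import Pool.Agent.H97.ST.Targets

/-!
Module DET7 of the board e7 (MP_57ddd5_pr): the deterministic step.
-/

open MeasureTheory ProbabilityTheory Filter Topology
open scoped ENNReal

namespace Pool.Agent.H2.E7

open Pool.Agent.H99.NS Pool.Agent.H22.LPP Pool.Agent.H97.NF Pool.Agent.H97.ST
open Pool.Agent.H95.INS (Near)

theorem reach_oe (k : ℕ) : Reach (oK k) (eK k) := by
  unfold Reach oK eK
  have h : (0 : ℤ) < 64 ^ (k - 1) := by positivity
  refine ⟨?_, ?_⟩
  · simp only [sub_self, abs_zero]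
    linarith
  · refine ⟨32 * 64 ^ (k - 1), ?_⟩
    simp only
    ring

theorem pf_DET7 (h1 : T_COAL) (h2 : T_DFAR) (h3 : T_DUP) (h4 : T_DDN) : T_DET7 := by
  intro k i h A B j m hh hi hk hmid hA hne hag hcl hR hReg
  by_cases hfar : |Lk k B j - Lk k A j| ≤ 4 * 2 ^ h * 16 ^ i
  swap
  · rw [not_le] at hfar
    exact Or.inr (Or.inr (h2 k i h A B j m (by omega) hmid hA hfar hcl))
  have hB := hReg hfar
  obtain ⟨P, hP⟩ : ∃ P : ℤ, P = 64 ^ (i - 1) := ⟨_, rfl⟩
  have hP0 : 0 < P := by rw [hP]; positivity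
  have hPi : (64 : ℤ) ^ i = 64 * P := by
    rw [hP, ← pow_succ']
    congr 1
    omega
  have hPk : 64 * P ≤ 64 ^ (k - 1) := by
    rw [← hPi]
    exact pow_le_pow_right₀ (by norm_num) (by omega)
  have hmid' : |j| ≤ 16 * 64 ^ (k - 1) := hmid
  rw [abs_le] at hmid'
  by_cases c1 : ∃ t1, j - 32 * P ≤ t1 ∧ t1 ≤ j ∧ Lk k A t1 = Lk k B t1
  swap
  · refine Or.inr (Or.inl (h4 k i h A B j m hh hi hk hmid hA hfar hag hcl hB ?_))
    intro t ht1 ht2 he
    rw [← hP] at ht1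
    exact c1 ⟨t, by linarith, ht2, he⟩
  by_cases c2 : ∃ t2, j ≤ t2 ∧ t2 ≤ j + 32 * P ∧ Lk k A t2 = Lk k B t2
  swap
  · refine Or.inl (h3 k i h A B j m hh hi hk hmid hA hfar hag hcl hB ?_)
    intro t ht1 ht2 he
    rw [← hP] at ht2
    exact c2 ⟨t, ht1, by linarith, he⟩
  exfalso
  obtain ⟨t1, ha1, hb1, hc1⟩ := c1
  obtain ⟨t2, ha2, hb2, hc2⟩ := c2
  obtain ⟨W, hW⟩ : ∃ W : ℤ, W = 2 ^ h * 16 ^ i := ⟨_, rfl⟩
  have hW0 : 0 < W := by rw [hW]; positivity
  obtain ⟨hA1, hA2⟩ := hA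
  have hfar' : |Lk k B j - Lk k A j| ≤ 4 * W := by
    rw [hW]
    linarith
  rw [abs_le] at hfar'
  have key : ∀ t x : ℤ, t1 < t → t ≤ t2 → |x - Lk k A j| ≤ 5 * W → A (t, x) = B (t, x) := by
    intro t x ht ht' hx
    rw [abs_le] at hx
    refine hag _ ⟨?_, ?_, ?_⟩
    · simp only
      rw [hPi]
      have : |t - j| ≤ 32 * P := abs_le.2 ⟨by linarith, by linarith⟩
      linarith
    · simp only [Rm]
      have e : 8 * 2 ^ h * 16 ^ i = 8 * W := by rw [hW]; ring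
      rw [e]
      linarith
    · simp only [Rm]
      have e : 8 * 2 ^ h * 16 ^ i = 8 * W := by rw [hW]; ring
      rw [e]
      linarith
  have ht1' : (oK k).1 ≤ t1 := by
    simp only [oK]
    linarith
  have ht2' : t2 ≤ (eK k).1 := by
    simp only [eK]
    linarith
  have hfin := h1 A B (oK k) (eK k) t1 t2 j (reach_oe k) ht1' hb1 ha2 ht2' hc1 hc2 (by
    intro t ht ht'
    refine key t _ ht ht' ?_
    have hd := hR t (by
      rw [hPi]
      have : |t - j| ≤ 32 * P := abs_le.2 ⟨by linarith, by linarith⟩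
      linarith)
    have hd' : |Lk k A t - Lk k A j| ≤ W := by rw [hW]; exact hd
    exact hd'.trans (by linarith)) (by
    intro t ht ht'
    refine key t _ ht ht' ?_
    have hd := hB.d t (by
      rw [hPi]
      have : |t - j| ≤ 32 * P := abs_le.2 ⟨by linarith, by linarith⟩
      linarith)
    have hd' : |Lk k B t - Lk k B j| ≤ W := by rw [hW]; exact hd
    rw [abs_le] at hd' ⊢
    change -(5 * W) ≤ Lk k B t - Lk k A j ∧ Lk k B t - Lk k A j ≤ 5 * W
    constructor <;> linarith [hd'.1, hd'.2, hfar'.1, hfar'.2])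
  exact hne hfin.symm

end Pool.Agent.H2.E7
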